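import Mathlib
import Pool.Agent.X130.RelE

set_option autoImplicit false

/-!
# Path systems in graphs and their reductions
-/

namespace Pool.Agent.X130.PS

open Pool.Agent.NPC Pool.Agent.NPC.H634R2

/-- The list `p` (of vertices) is a simple path with at least one edge in the graph with the vertices `V`
and the edges `E`. -/
def IsPathIn (V : List ℕ) (E : List (ℕ × ℕ)) (p : List ℕ) : Prop :=
  2 ≤ p.length ∧ (∀ x ∈ p, x ∈ V) ∧ p.Nodup ∧ p.IsChain (fun a b => (a, b) ∈ E ∨ (b, a) ∈ E)

/-- The path `p` joins `u` and `v`. -/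
def Joins (p : List ℕ) (u v : ℕ) : Prop :=
  (p.head? = some u ∧ p.getLast? = some v) ∨ (p.head? = some v ∧ p.getLast? = some u)

/-- `P` is a path system: a collection (list without repetitions) of paths such that any two distinct
vertices are joined by exactly one member. -/
def IsPathSystem (V : List ℕ) (E : List (ℕ × ℕ)) (P : List (List ℕ)) : Prop :=
  P.Nodup ∧ (∀ p ∈ P, IsPathIn V E p) ∧
    ∀ u ∈ V, ∀ v ∈ V, u ≠ v → ∃ p, (p ∈ P ∧ Joins p u v) ∧ ∀ q, q ∈ P → Joins q u v → q = p

/-- The path system is consistent: every subpath of a member is a member (in one of its two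
directions). -/
def Consistent (P : List (List ℕ)) : Prop :=
  ∀ p ∈ P, ∀ q, q <:+: p → 2 ≤ q.length → q ∈ P ∨ q.reverse ∈ P

/-- The path system has a reduction: a partition of the vertices into two nonempty sets (`A` and its
complement) such that the member joining two vertices of one of the sets stays in this set. -/
def HasReduction (V : List ℕ) (P : List (List ℕ)) : Prop :=
  ∃ A : Finset ℕ, (∃ a ∈ V, a ∈ A) ∧ (∃ b ∈ V, b ∉ A) ∧ ∀ p ∈ P, ∀ u v, Joins p u v →
    (u ∈ A → v ∈ A → ∀ x ∈ p, x ∈ A) ∧ (u ∉ A → v ∉ A → ∀ x ∈ p, x ∉ A)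

/-- The decision problem: given a graph and a consistent path system in it, does the path system have a
reduction, i.e. is it not irreducible? -/
def Reducible (I : (List ℕ × List (ℕ × ℕ)) × List (List ℕ)) : Prop :=
  IsGraph I.1.1 I.1.2 ∧ IsPathSystem I.1.1 I.1.2 I.2 ∧ Consistent I.2 ∧ HasReduction I.1.1 I.2

/-! ### Path systems with paths of length at most two -/

section
variable {n : ℕ} {mid : ℕ → ℕ → Option ℕ}

/-- the path with ends `u`, `v` -/
def pth (mid : ℕ → ℕ → Option ℕ) (u v : ℕ) : List ℕ := (mid u v).elim [u, v] (fun m => [u, m, v])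

/-- all paths -/
def psys (n : ℕ) (mid : ℕ → ℕ → Option ℕ) : List (List ℕ) :=
  (List.range n).flatMap (fun u => ((List.range n).filter (fun v => decide (u < v))).map (pth mid u))

/-- the edges -/
def edg (n : ℕ) (mid : ℕ → ℕ → Option ℕ) : List (ℕ × ℕ) :=
  relE (List.range n) (fun u v => (mid u v).isNone)

/-- the middle vertices are adjacent to both ends -/
def Good (n : ℕ) (mid : ℕ → ℕ → Option ℕ) : Prop :=
  ∀ u v m, u < v → v < n → mid u v = some m → m < n ∧ m ≠ u ∧ m ≠ v ∧
    mid (min u m) (max u m) = none ∧ mid (min m v) (max m v) = none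

theorem mem_psys {p : List ℕ} : p ∈ psys n mid ↔ ∃ u v, u < v ∧ v < n ∧ p = pth mid u v := by
  unfold psys
  simp only [List.mem_flatMap, List.mem_map, List.mem_filter, List.mem_range, decide_eq_true_eq]
  constructor
  · rintro ⟨u, _, v, ⟨h1, h2⟩, rfl⟩
    exact ⟨u, v, h2, h1, rfl⟩
  · rintro ⟨u, v, h1, h2, rfl⟩
    exact ⟨u, by omega, v, ⟨h2, h1⟩, rfl⟩

theorem pth_head (u v : ℕ) : (pth mid u v).head? = some u := by
  unfold pth
  cases mid u v <;> rfl

theorem pth_last (u v : ℕ) : (pth mid u v).getLast? = some v := by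
  unfold pth
  cases mid u v <;> rfl

theorem joins_pth {a b u v : ℕ} : Joins (pth mid a b) u v ↔ (a = u ∧ b = v) ∨ (a = v ∧ b = u) := by
  unfold Joins
  rw [pth_head, pth_last]
  simp

theorem adj_edg {a b : ℕ} (ha : a < n) (hb : b < n) (hab : a ≠ b)
    (h : mid (min a b) (max a b) = none) : (a, b) ∈ edg n mid ∨ (b, a) ∈ edg n mid := by
  unfold edg
  rw [mem_relE, mem_relE]
  simp only [List.mem_range]
  rcases Nat.lt_or_gt_of_ne hab with h1 | h1
  · left
    rw [min_eq_left h1.le, max_eq_right h1.le] at h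
    exact ⟨ha, hb, h1, by rw [h]; rfl⟩
  · right
    rw [min_eq_right h1.le, max_eq_left h1.le] at h
    exact ⟨hb, ha, h1, by rw [h]; rfl⟩

theorem edge_mem {a b : ℕ} (ha : a < n) (hb : b < n) (hab : a ≠ b)
    (h : mid (min a b) (max a b) = none) : [a, b] ∈ psys n mid ∨ [b, a] ∈ psys n mid := by
  rcases Nat.lt_or_gt_of_ne hab with h1 | h1
  · left
    rw [min_eq_left h1.le, max_eq_right h1.le] at h
    exact mem_psys.2 ⟨a, b, h1, hb, by unfold pth; rw [h]; rfl⟩
  · right
    rw [min_eq_right h1.le, max_eq_left h1.le] at h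
    exact mem_psys.2 ⟨b, a, h1, ha, by unfold pth; rw [h]; rfl⟩

theorem isPathSystem (hg : Good n mid) :
    IsPathSystem (List.range n) (edg n mid) (psys n mid) := by
  refine ⟨?_, ?_, ?_⟩
  · unfold psys
    rw [List.nodup_flatMap]
    refine ⟨fun u _ => (List.nodup_range.filter _).map_on ?_, ?_⟩
    · intro x _ y _ h
      have := congrArg List.getLast? h
      rw [pth_last, pth_last] at this
      exact Option.some.inj this
    · refine List.nodup_range.imp ?_
      intro a b hab x hx hx'
      obtain ⟨v, _, rfl⟩ := List.mem_map.1 hx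
      obtain ⟨w, _, h⟩ := List.mem_map.1 hx'
      have := congrArg List.head? h
      rw [pth_head, pth_head] at this
      exact hab (Option.some.inj this).symm
  · intro p hp
    obtain ⟨u, v, h1, h2, rfl⟩ := mem_psys.1 hp
    unfold pth IsPathIn
    cases hm : mid u v with
    | none =>
      have h3 : (u, v) ∈ edg n mid := by
        unfold edg
        rw [mem_relE]
        exact ⟨List.mem_range.2 (by omega), List.mem_range.2 h2, h1, by rw [hm]; rfl⟩
      simp only [Option.elim]
      refine ⟨by simp, ?_, by simp; omega, ?_⟩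
      · intro x hx
        simp only [List.mem_cons, List.not_mem_nil, or_false] at hx
        rw [List.mem_range]
        omega
      · simp [h3]
    | some m =>
      obtain ⟨h3, h4, h5, h6, h7⟩ := hg u v m h1 h2 hm
      simp only [Option.elim]
      refine ⟨by simp, ?_, by simp; omega, ?_⟩
      · intro x hx
        simp only [List.mem_cons, List.not_mem_nil, or_false] at hx
        rw [List.mem_range]
        omega
      · have h8 := adj_edg (by omega) h3 (Ne.symm h4) h6
        have h9 := adj_edg h3 h2 h5 h7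
        simp only [List.isChain_cons_cons, List.isChain_singleton, and_true]
        exact ⟨h8, h9⟩
  · intro u hu v hv huv
    rw [List.mem_range] at hu hv
    refine ⟨pth mid (min u v) (max u v), ⟨mem_psys.2 ⟨_, _, by omega, by omega, rfl⟩, ?_⟩, ?_⟩
    · rw [joins_pth]
      omega
    · intro q hq hj
      obtain ⟨a, b, h1, h2, rfl⟩ := mem_psys.1 hq
      rw [joins_pth] at hj
      have h3 : a = min u v := by omega
      have h4 : b = max u v := by omega
      rw [h3, h4]

theorem consistent (hg : Good n mid) : Consistent (psys n mid) := by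
  intro p hp q hq hl
  obtain ⟨u, v, h1, h2, rfl⟩ := mem_psys.1 hp
  unfold pth at hq
  cases hm : mid u v with
  | none =>
    rw [hm] at hq
    simp only [Option.elim, List.infix_cons_iff, List.prefix_cons_iff, List.infix_nil,
      List.prefix_nil] at hq
    have h3 : q = [u, v] := by
      rcases hq with (rfl | ⟨t, rfl, rfl | ⟨s, rfl, rfl⟩⟩) | (rfl | ⟨t, rfl, rfl⟩) | rfl <;>
        simp_all
    subst h3
    exact edge_mem (by omega) h2 (by omega) (by rw [min_eq_left h1.le, max_eq_right h1.le, hm])
  | some m =>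
    obtain ⟨h3, h4, h5, h6, h7⟩ := hg u v m h1 h2 hm
    rw [hm] at hq
    simp only [Option.elim, List.infix_cons_iff, List.prefix_cons_iff, List.infix_nil,
      List.prefix_nil] at hq
    have h8 : q = [u, m] ∨ q = [m, v] ∨ q = [u, m, v] := by
      rcases hq with (rfl | ⟨t, rfl, rfl | ⟨s, rfl, rfl | ⟨r, rfl, rfl⟩⟩⟩) |
        (rfl | ⟨t, rfl, rfl | ⟨s, rfl, rfl⟩⟩) | (rfl | ⟨t, rfl, rfl⟩) | rfl <;> simp_all
    rcases h8 with rfl | rfl | rfl
    · exact edge_mem (by omega) h3 (Ne.symm h4) h6
    · exact edge_mem h3 h2 h5 h7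
    · left
      exact mem_psys.2 ⟨u, v, h1, h2, by unfold pth; rw [hm]; rfl⟩

theorem hasReduction_iff (hg : Good n mid) : HasReduction (List.range n) (psys n mid) ↔
    ∃ A : Finset ℕ, (∃ a < n, a ∈ A) ∧ (∃ b < n, b ∉ A) ∧
      ∀ u v m, u < v → v < n → mid u v = some m → (u ∈ A ↔ v ∈ A) → (m ∈ A ↔ u ∈ A) := by
  unfold HasReduction
  simp only [List.mem_range]
  refine exists_congr fun A => and_congr_right fun _ => and_congr_right fun _ => ?_
  constructor
  · intro h u v m h1 h2 hm huv
    have h3 := h (pth mid u v) (mem_psys.2 ⟨u, v, h1, h2, rfl⟩) u v (joins_pth.2 (Or.inl ⟨rfl, rfl⟩))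
    have h4 : m ∈ pth mid u v := by unfold pth; rw [hm]; simp
    by_cases hu : u ∈ A
    · exact iff_of_true (h3.1 hu (huv.1 hu) m h4) hu
    · exact iff_of_false (h3.2 hu (fun hv => hu (huv.2 hv)) m h4) hu
  · intro h p hp u v hj
    obtain ⟨a, b, h1, h2, rfl⟩ := mem_psys.1 hp
    rw [joins_pth] at hj
    have key : ∀ x ∈ pth mid a b, (a ∈ A ↔ b ∈ A) → (x ∈ A ↔ a ∈ A) := by
      intro x hx hab
      unfold pth at hx
      cases hm : mid a b with
      | none =>
        rw [hm] at hx
        simp only [Option.elim, List.mem_cons, List.not_mem_nil, or_false] at hx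
        rcases hx with rfl | rfl
        · exact Iff.rfl
        · exact hab.symm
      | some m =>
        rw [hm] at hx
        simp only [Option.elim, List.mem_cons, List.not_mem_nil, or_false] at hx
        rcases hx with rfl | rfl | rfl
        · exact Iff.rfl
        · exact h a b x h1 h2 hm hab
        · exact hab.symm
    rcases hj with ⟨rfl, rfl⟩ | ⟨rfl, rfl⟩
    · exact ⟨fun ha hb x hx => (key x hx (iff_of_true ha hb)).2 ha,
        fun ha hb x hx hxa => ha ((key x hx (iff_of_false ha hb)).1 hxa)⟩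
    · exact ⟨fun hb ha x hx => (key x hx (iff_of_true ha hb)).2 ha,
        fun hb ha x hx hxa => ha ((key x hx (iff_of_false ha hb)).1 hxa)⟩
end

end Pool.Agent.X130.PS
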