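import Mathlib
import Pool.Agent.X130.PS.Defs
import Pool.Agent.X130.Sat

set_option autoImplicit false

/-!
# Reductions of path systems: the reduction from 3SAT
-/

namespace Pool.Agent.X130.PS

open Pool.Agent.NPC Pool.Agent.NPC.H634R2

/-- the irreducible core on `0, …, 7` (entry `8 u + v` is `m + 1` if `m` is between `u` and `v`) -/
def tab : List ℕ :=
  [0, 4, 5, 0, 0, 8, 0, 0,
   0, 0, 0, 0, 0, 7, 0, 0,
   0, 0, 0, 0, 0, 4, 0, 0,
   0, 0, 0, 0, 6, 0, 1, 2,
   0, 0, 0, 0, 0, 0, 3, 3,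
   0, 0, 0, 0, 0, 0, 0, 0,
   0, 0, 0, 0, 0, 0, 0, 3,
   0, 0, 0, 0, 0, 0, 0, 0]

/-- complementary occurrences of literals -/
def contr (φ : F3) (a b : ℕ) : Bool :=
  (lits φ).any (fun p => (lits φ).any (fun q => decide (p.2 = a ∧ q.2 = b ∧ p.1.2 = q.1.2 ∧ p.1.1 ≠ q.1.1)))

/-- the rule of a pair of core vertices -/
def midC (u v : ℕ) : Option ℕ := if tab.getD (8 * u + v) 0 = 0 then none else some (tab.getD (8 * u + v) 0 - 1)

/-- the rule of a core vertex and a vertex `z_i` -/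
def midZ (N u v : ℕ) : Option ℕ :=
  if v % 2 = 0 ∧ v < 8 + 2 * N ∧ u = v / 2 % 2 then some (v + 2)
  else if v % 2 = 0 ∧ v < 8 + 2 * N ∧ u = 2 then some (v + 1) else none

/-- the rule of the vertices `x_a` and `x_b` -/
def midX (φ : F3) (a b : ℕ) : Option ℕ :=
  if contr φ a b = true then some 8
  else if a % 3 = 0 ∧ b = a + 1 ∧ b < 3 * φ.length then some (9 + 2 * (3 * φ.length + a / 3))
  else if a % 3 = 2 ∧ b = 3 * φ.length + a / 3 ∧ a < 3 * φ.length then some 3 else none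

/-- the middle vertex -/
def mid (φ : F3) (u v : ℕ) : Option ℕ :=
  if v < 8 then midC u v
  else if u < 8 then midZ (4 * φ.length) u v
  else if u % 2 = 1 ∧ v % 2 = 1 then midX φ ((u - 9) / 2) ((v - 9) / 2) else none

/-- the reduction -/
def red (φ : F3) : (List ℕ × List (ℕ × ℕ)) × List (List ℕ) :=
  ((List.range (9 + 8 * φ.length), edg (9 + 8 * φ.length) (mid φ)), psys (9 + 8 * φ.length) (mid φ))

attribute [local fun_prop] lits_poly

theorem range_poly : NPC.Poly (fun φ : F3 => List.range (9 + 8 * φ.length)) := by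
  refine UPoly.range (UPoly.add (UPoly.const 9) (UPoly.mul (UPoly.const 8) (UPoly.length NPC.Poly.id)))

theorem mid_poly {α : Type} [TEnc α] {φ : α → F3} {u v : α → ℕ} (hφ : NPC.Poly φ) (hu : NPC.Poly u)
    (hv : NPC.Poly v) : NPC.Poly (fun a => mid (φ a) (u a) (v a)) := by
  have hl : NPC.Poly (fun a => lits (φ a)) := lits_poly.comp hφ
  unfold mid midC midZ midX contr tab
  fun_prop

theorem red_poly : NPC.Poly red := by
  unfold red
  refine NPC.Poly.pair (NPC.Poly.pair range_poly ?_) ?_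
  · unfold edg
    refine relE_poly (R := fun φ u v => (mid φ u v).isNone) range_poly ?_
    have : NPC.Poly (fun x : (F3 × ℕ) × ℕ => mid x.1.1 x.1.2 x.2) :=
      mid_poly (by fun_prop) (by fun_prop) (by fun_prop)
    refine (NPC.Poly.optElim (g := fun _ => true) (h := fun _ _ => false) this (NPC.Poly.const _)
      (NPC.Poly.const _)).congr fun a => ?_
    cases mid a.1.1 a.1.2 a.2 <;> rfl
  · unfold psys
    refine NPC.Poly.flatMap (F := fun φ u => ((List.range (9 + 8 * φ.length)).filter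
      (fun v => decide (u < v))).map (pth (mid φ) u)) range_poly ?_
    refine NPC.Poly.map (F := fun (x : F3 × ℕ) v => pth (mid x.1) x.2 v) ?_ ?_
    · refine NPC.Poly.filter (p := fun (x : F3 × ℕ) v => decide (x.2 < v)) ?_ (by fun_prop)
      exact range_poly.comp (NPC.Poly.fst NPC.Poly.id)
    · unfold pth
      refine NPC.Poly.optElim (h := fun (x : (F3 × ℕ) × ℕ) m => [x.1.2, m, x.2]) ?_ (by fun_prop)
        (by fun_prop)
      exact mid_poly (by fun_prop) (by fun_prop) (by fun_prop)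

/-! ### The core -/

/-- the check of the table -/
def chkT : Bool := (List.range 8).all (fun v => (List.range v).all (fun u =>
  let m := tab.getD (8 * u + v) 0
  decide (m = 0) || (decide (m - 1 < 8) && decide (m - 1 ≠ u) && decide (m - 1 ≠ v) &&
    decide (tab.getD (8 * (min u (m - 1)) + max u (m - 1)) 0 = 0) &&
    decide (tab.getD (8 * (min (m - 1) v) + max (m - 1) v) 0 = 0))))

theorem chkT_true : chkT = true := by decide

theorem midC_good {u v m : ℕ} (huv : u < v) (hv : v < 8) (h : midC u v = some m) :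
    m < 8 ∧ m ≠ u ∧ m ≠ v ∧ midC (min u m) (max u m) = none ∧ midC (min m v) (max m v) = none := by
  unfold midC at *
  split_ifs at h with h0
  have hm := Option.some.inj h
  have h1 := chkT_true
  unfold chkT at h1
  rw [List.all_eq_true] at h1
  have h2 := h1 v (List.mem_range.2 hv)
  rw [List.all_eq_true] at h2
  have h3 := h2 u (List.mem_range.2 huv)
  simp only [h0, decide_false, Bool.false_or, Bool.and_eq_true, decide_eq_true_eq] at h3
  rw [hm] at h3
  obtain ⟨⟨⟨⟨h4, h5⟩, h6⟩, h7⟩, h8⟩ := h3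
  exact ⟨h4, h5, h6, by rw [if_pos h7], by rw [if_pos h8]⟩

/-- the check of irreducibility -/
def chk (b0 b1 b2 b3 b4 b5 b6 b7 : Bool) : Bool :=
  !((b0 != b1 || b3 == b0) && (b0 != b2 || b4 == b0) && (b0 != b5 || b7 == b0) &&
    (b1 != b5 || b6 == b1) && (b2 != b5 || b3 == b2) && (b3 != b4 || b5 == b3) &&
    (b3 != b6 || b0 == b3) && (b3 != b7 || b1 == b3) && (b4 != b6 || b2 == b4) &&
    (b4 != b7 || b2 == b4) && (b6 != b7 || b2 == b6)) ||
  (b1 == b0 && b2 == b0 && b3 == b0 && b4 == b0 && b5 == b0 && b6 == b0 && b7 == b0)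

theorem chk_true : ∀ b0 b1 b2 b3 b4 b5 b6 b7 : Bool, chk b0 b1 b2 b3 b4 b5 b6 b7 = true := by
  decide

/-- the core is irreducible -/
theorem core_irr {c : ℕ → Bool} (h : ∀ u v m, u < v → v < 8 → midC u v = some m → c u = c v →
    c m = c u) : ∀ u < 8, c u = c 0 := by
  have h1 := chk_true (c 0) (c 1) (c 2) (c 3) (c 4) (c 5) (c 6) (c 7)
  have r1 := h 0 1 3 (by omega) (by omega) (by decide)
  have r2 := h 0 2 4 (by omega) (by omega) (by decide)
  have r3 := h 0 5 7 (by omega) (by omega) (by decide)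
  have r4 := h 1 5 6 (by omega) (by omega) (by decide)
  have r5 := h 2 5 3 (by omega) (by omega) (by decide)
  have r6 := h 3 4 5 (by omega) (by omega) (by decide)
  have r7 := h 3 6 0 (by omega) (by omega) (by decide)
  have r8 := h 3 7 1 (by omega) (by omega) (by decide)
  have r9 := h 4 6 2 (by omega) (by omega) (by decide)
  have r10 := h 4 7 2 (by omega) (by omega) (by decide)
  have r11 := h 6 7 2 (by omega) (by omega) (by decide)
  have im : ∀ a b d e : Bool, (a = b → d = e) → (a != b || d == e) = true := by decide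
  unfold chk at h1
  rw [im _ _ _ _ r1, im _ _ _ _ r2, im _ _ _ _ r3, im _ _ _ _ r4, im _ _ _ _ r5, im _ _ _ _ r6,
    im _ _ _ _ r7, im _ _ _ _ r8, im _ _ _ _ r9, im _ _ _ _ r10, im _ _ _ _ r11] at h1
  simp only [Bool.and_self, Bool.not_true, Bool.false_or, Bool.and_eq_true, beq_iff_eq] at h1
  obtain ⟨⟨⟨⟨⟨⟨h2, h3⟩, h4⟩, h5⟩, h6⟩, h7⟩, h8⟩ := h1
  intro u hu
  interval_cases u
  · rfl
  · exact h2
  · exact h3
  · exact h4
  · exact h5
  · exact h6
  · exact h7
  · exact h8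

theorem contr_iff {φ : F3} {a b : ℕ} : contr φ a b = true ↔ ∃ w s, ((s, w), a) ∈ lits φ ∧
    ((!s, w), b) ∈ lits φ := by
  unfold contr
  simp only [List.any_eq_true, decide_eq_true_eq]
  constructor
  · rintro ⟨⟨⟨s, w⟩, i⟩, hp, ⟨⟨s', w'⟩, j⟩, hq, h1, h2, h3, h4⟩
    simp only at h1 h2 h3 h4
    subst h1 h2 h3
    have : s' = !s := by cases s <;> cases s' <;> simp_all
    subst this
    exact ⟨w, s, hp, hq⟩
  · rintro ⟨w, s, hp, hq⟩
    exact ⟨_, hp, _, hq, rfl, rfl, rfl, by cases s <;> simp⟩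

theorem lits_lt {φ : F3} {l : Lit ℕ} {t : ℕ} (hp : (l, t) ∈ lits φ) : t < 3 * φ.length := by
  have h : t ∈ gV φ := List.mem_map.2 ⟨(l, t), hp, rfl⟩
  exact mem_gV.1 h

theorem contr_same {φ : F3} (hφ : Distinct3 φ) {a b : ℕ} (h : contr φ a b = true) : a / 3 ≠ b / 3 := by
  intro hab
  obtain ⟨w, s, h1, h2⟩ := contr_iff.1 h
  obtain ⟨c, hc, hl⟩ := mem_lits.1 h1
  obtain ⟨c', hc', hl'⟩ := mem_lits.1 h2
  rw [← hab, hc] at hc'
  have := Option.some.inj hc'
  subst this
  have hd := hφ c (List.mem_of_getElem? hc)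
  have ha := Nat.mod_lt a (show 0 < 3 by omega)
  have hb := Nat.mod_lt b (show 0 < 3 by omega)
  have h3 : ∀ i < 3, ∀ l, ([c.1, c.2.1, c.2.2] : List (Lit ℕ))[i]? = some l →
      (i = 0 ∧ l = c.1) ∨ (i = 1 ∧ l = c.2.1) ∨ (i = 2 ∧ l = c.2.2) := by
    intro i hi l hl
    interval_cases i
    · exact Or.inl ⟨rfl, (Option.some.inj hl).symm⟩
    · exact Or.inr (Or.inl ⟨rfl, (Option.some.inj hl).symm⟩)
    · exact Or.inr (Or.inr ⟨rfl, (Option.some.inj hl).symm⟩)
  have ne : ∀ s : Bool, s ≠ !s := by decide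
  rcases h3 _ ha _ hl with ⟨_, h4⟩ | ⟨_, h4⟩ | ⟨_, h4⟩ <;>
    rcases h3 _ hb _ hl' with ⟨_, h5⟩ | ⟨_, h5⟩ | ⟨_, h5⟩
  · exact ne s (congrArg Prod.fst (h4.trans h5.symm))
  · exact hd.1 (by rw [← h4, ← h5])
  · exact hd.2.1 (by rw [← h4, ← h5])
  · exact hd.1 (by rw [← h4, ← h5])
  · exact ne s (congrArg Prod.fst (h4.trans h5.symm))
  · exact hd.2.2 (by rw [← h4, ← h5])
  · exact hd.2.1 (by rw [← h4, ← h5])
  · exact hd.2.2 (by rw [← h4, ← h5])
  · exact ne s (congrArg Prod.fst (h4.trans h5.symm))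

end Pool.Agent.X130.PS
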