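import Mathlib
import Pool.Agent.X130.PS.Red

set_option autoImplicit false

/-!
# Reductions of path systems: correctness and hardness
-/

namespace Pool.Agent.X130.PS

open Pool.Agent.NPC Pool.Agent.NPC.H634R2

variable {φ : F3}

theorem mid_core {u v : ℕ} (hv : v < 8) : mid φ u v = midC u v := by
  unfold mid
  rw [if_pos hv]

theorem mid_z {u v : ℕ} (hu : u < 8) (hv : 8 ≤ v) : mid φ u v = midZ (4 * φ.length) u v := by
  unfold mid
  rw [if_neg (by omega), if_pos hu]

theorem mid_x (a b : ℕ) : mid φ (9 + 2 * a) (9 + 2 * b) = midX φ a b := by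
  unfold mid
  rw [if_neg (by omega), if_neg (by omega), if_pos (by omega)]
  congr 1 <;> omega

theorem mid_even {u v : ℕ} (hu : 8 ≤ u) (hv : 8 ≤ v) (h : u % 2 = 0 ∨ v % 2 = 0) :
    mid φ u v = none := by
  unfold mid
  rw [if_neg (by omega), if_neg (by omega), if_neg (by omega)]

theorem midZ_odd {N u v : ℕ} (h : v % 2 = 1) : midZ N u v = none := by
  unfold midZ
  rw [if_neg (by omega), if_neg (by omega)]

theorem contr_lt {a b : ℕ} (h : contr φ a b = true) : a < 3 * φ.length ∧ b < 3 * φ.length := by
  obtain ⟨w, s, h1, h2⟩ := contr_iff.1 h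
  exact ⟨lits_lt h1, lits_lt h2⟩

theorem good (hφ : Distinct3 φ) : Good (9 + 8 * φ.length) (mid φ) := by
  intro u v k huv hv h
  set m := φ.length with hm
  by_cases h8 : v < 8
  · rw [mid_core h8] at h
    obtain ⟨h1, h2, h3, h4, h5⟩ := midC_good huv h8 h
    refine ⟨by omega, h2, h3, ?_, ?_⟩
    · rw [mid_core (by omega)]; exact h4
    · rw [mid_core (by omega)]; exact h5
  by_cases hu8 : u < 8
  · rw [mid_z hu8 (by omega)] at h
    unfold midZ at h
    split_ifs at h with h1 h2
    · have hk : k = v + 2 := (Option.some.inj h).symm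
      subst hk
      refine ⟨by omega, by omega, by omega, ?_, ?_⟩
      · rw [min_eq_left (by omega), max_eq_right (by omega), mid_z hu8 (by omega)]
        unfold midZ
        rw [if_neg (by omega), if_neg (by omega)]
      · exact mid_even (by omega) (by omega) (by omega)
    · have hk : k = v + 1 := (Option.some.inj h).symm
      subst hk
      refine ⟨by omega, by omega, by omega, ?_, ?_⟩
      · rw [min_eq_left (by omega), max_eq_right (by omega), mid_z hu8 (by omega)]
        exact midZ_odd (by omega)
      · exact mid_even (by omega) (by omega) (by omega)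
  · by_cases hodd : u % 2 = 1 ∧ v % 2 = 1
    · obtain ⟨a, rfl⟩ : ∃ a, u = 9 + 2 * a := ⟨(u - 9) / 2, by omega⟩
      obtain ⟨b, rfl⟩ : ∃ b, v = 9 + 2 * b := ⟨(v - 9) / 2, by omega⟩
      rw [mid_x] at h
      unfold midX at h
      split_ifs at h with h1 h2 h3
      · have hk : k = 8 := (Option.some.inj h).symm
        subst hk
        exact ⟨by omega, by omega, by omega, mid_even (by omega) (by omega) (by omega),
          mid_even (by omega) (by omega) (by omega)⟩
      · have hk : k = 9 + 2 * (3 * φ.length + a / 3) := (Option.some.inj h).symm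
        subst hk
        refine ⟨by omega, by omega, by omega, ?_, ?_⟩
        · rw [min_eq_left (by omega), max_eq_right (by omega), mid_x]
          unfold midX
          rw [if_neg (fun hc => by have := contr_lt hc; omega), if_neg (by omega), if_neg (by omega)]
        · rw [min_eq_right (by omega), max_eq_left (by omega), mid_x]
          unfold midX
          rw [if_neg (fun hc => by have := contr_lt hc; omega), if_neg (by omega), if_neg (by omega)]
      · have hk : k = 3 := (Option.some.inj h).symm
        subst hk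
        refine ⟨by omega, by omega, by omega, ?_, ?_⟩
        · rw [min_eq_right (by omega), max_eq_left (by omega), mid_z (by omega) (by omega)]
          exact midZ_odd (by omega)
        · rw [min_eq_left (by omega), max_eq_right (by omega), mid_z (by omega) (by omega)]
          exact midZ_odd (by omega)
    · rw [mid_even (by omega) (by omega) (by omega)] at h
      exact absurd h (by simp)

theorem clause_lits {j : ℕ} {c : Cl3} (hc : φ[j]? = some c) :
    (c.1, 3 * j) ∈ lits φ ∧ (c.2.1, 3 * j + 1) ∈ lits φ ∧ (c.2.2, 3 * j + 2) ∈ lits φ := by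
  refine ⟨mem_lits.2 ⟨c, ?_, ?_⟩, mem_lits.2 ⟨c, ?_, ?_⟩, mem_lits.2 ⟨c, ?_, ?_⟩⟩
  · have : 3 * j / 3 = j := by omega
    rw [this]; exact hc
  · have : 3 * j % 3 = 0 := by omega
    rw [this]; rfl
  · have : (3 * j + 1) / 3 = j := by omega
    rw [this]; exact hc
  · have : (3 * j + 1) % 3 = 1 := by omega
    rw [this]; rfl
  · have : (3 * j + 2) / 3 = j := by omega
    rw [this]; exact hc
  · have : (3 * j + 2) % 3 = 2 := by omega
    rw [this]; rfl

theorem fwd (h : SAT3 φ) : ∃ A : Finset ℕ, (∃ a < 9 + 8 * φ.length, a ∈ A) ∧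
    (∃ b < 9 + 8 * φ.length, b ∉ A) ∧ ∀ u v m, u < v → v < 9 + 8 * φ.length → mid φ u v = some m →
      (u ∈ A ↔ v ∈ A) → (m ∈ A ↔ u ∈ A) := by
  classical
  obtain ⟨τ, hτ⟩ := h
  set T : ℕ → Prop := fun t => ∃ l : Lit ℕ, (l, t) ∈ lits φ ∧ τ l.2 = l.1 with hT
  set val : ℕ → Prop := fun t => if t < 3 * φ.length then T t else
    T (3 * (t - 3 * φ.length)) ∨ T (3 * (t - 3 * φ.length) + 1) with hval
  set A : Finset ℕ := (Finset.range (9 + 8 * φ.length)).filter
    (fun x => x < 8 ∨ (x % 2 = 1 ∧ 9 ≤ x ∧ val ((x - 9) / 2))) with hA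
  have memA : ∀ x, x < 9 + 8 * φ.length → (x ∈ A ↔ x < 8 ∨ (x % 2 = 1 ∧ 9 ≤ x ∧ val ((x - 9) / 2))) := by
    intro x hx
    rw [hA, Finset.mem_filter, Finset.mem_range]
    exact and_iff_right hx
  have memX : ∀ a, 9 + 2 * a < 9 + 8 * φ.length → (9 + 2 * a ∈ A ↔ val a) := by
    intro a ha
    rw [memA _ ha]
    have : (9 + 2 * a - 9) / 2 = a := by omega
    rw [this]
    constructor
    · rintro (h | h)
      · omega
      · exact h.2.2
    · exact fun h => Or.inr ⟨by omega, by omega, h⟩
  have hsat : ∀ j < φ.length, T (3 * j) ∨ T (3 * j + 1) ∨ T (3 * j + 2) := by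
    intro j hj
    obtain ⟨c, hc⟩ : ∃ c, φ[j]? = some c := ⟨φ[j], List.getElem?_eq_getElem hj⟩
    obtain ⟨h1, h2, h3⟩ := clause_lits hc
    rcases hτ c (List.mem_of_getElem? hc) with h | h | h
    · exact Or.inl ⟨_, h1, h⟩
    · exact Or.inr (Or.inl ⟨_, h2, h⟩)
    · exact Or.inr (Or.inr ⟨_, h3, h⟩)
  refine ⟨A, ⟨0, by omega, (memA 0 (by omega)).2 (Or.inl (by omega))⟩, ⟨8, by omega, fun h => ?_⟩, ?_⟩
  · rcases (memA 8 (by omega)).1 h with h | h <;> omega
  · intro u v k huv hv h hiff
    by_cases h8 : v < 8
    · rw [mid_core h8] at h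
      have h1 := (midC_good huv h8 h).1
      exact iff_of_true ((memA k (by omega)).2 (Or.inl h1)) ((memA u (by omega)).2 (Or.inl (by omega)))
    by_cases hu8 : u < 8
    · exfalso
      rw [mid_z hu8 (by omega)] at h
      have hv2 : v % 2 = 0 := by
        by_contra hcon
        rw [midZ_odd (by omega)] at h
        exact absurd h (by simp)
      have h1 := hiff.1 ((memA u (by omega)).2 (Or.inl hu8))
      rcases (memA v hv).1 h1 with h2 | h2 <;> omega
    · by_cases hodd : u % 2 = 1 ∧ v % 2 = 1
      · obtain ⟨a, rfl⟩ : ∃ a, u = 9 + 2 * a := ⟨(u - 9) / 2, by omega⟩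
        obtain ⟨b, rfl⟩ : ∃ b, v = 9 + 2 * b := ⟨(v - 9) / 2, by omega⟩
        rw [mid_x] at h
        rw [memX a (by omega), memX b hv] at hiff
        rw [memX a (by omega)]
        unfold midX at h
        split_ifs at h with h1 h2 h3
        · have hk : k = 8 := (Option.some.inj h).symm
          subst hk
          refine iff_of_false ?_ ?_
          · intro h
            rcases (memA 8 (by omega)).1 h with h | h <;> omega
          · intro ha
            have hb := hiff.1 ha
            have hlt := contr_lt h1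
            simp only [hval] at ha hb
            rw [if_pos hlt.1] at ha
            rw [if_pos hlt.2] at hb
            obtain ⟨w, s, h3, h4⟩ := contr_iff.1 h1
            obtain ⟨l, hl, hl'⟩ := ha
            obtain ⟨l2, hl2, hl2'⟩ := hb
            rw [lits_unique hl h3] at hl'
            rw [lits_unique hl2 h4] at hl2'
            simp only at hl' hl2'
            rw [hl'] at hl2'
            cases s <;> simp at hl2'
        · have hk : k = 9 + 2 * (3 * φ.length + a / 3) := (Option.some.inj h).symm
          subst hk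
          rw [memX _ (by omega)]
          obtain ⟨h3, rfl, h5⟩ := h2
          simp only [hval] at hiff ⊢
          rw [if_pos (by omega), if_pos h5] at hiff
          rw [if_neg (by omega), if_pos (by omega)]
          have e1 : 3 * (3 * φ.length + a / 3 - 3 * φ.length) = a := by omega
          rw [e1]
          exact ⟨fun h => h.elim id hiff.2, Or.inl⟩
        · have hk : k = 3 := (Option.some.inj h).symm
          subst hk
          obtain ⟨h4, rfl, h5⟩ := h3
          refine iff_of_true ((memA 3 (by omega)).2 (Or.inl (by omega))) ?_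
          simp only [hval] at hiff ⊢
          rw [if_pos h5, if_neg (by omega)] at hiff
          rw [if_pos h5]
          have e1 : 3 * (3 * φ.length + a / 3 - 3 * φ.length) = 3 * (a / 3) := by omega
          rw [e1] at hiff
          have h6 := hsat (a / 3) (by omega)
          have e2 : 3 * (a / 3) + 2 = a := by omega
          rw [e2] at h6
          rcases h6 with h | h | h
          · exact hiff.2 (Or.inl h)
          · exact hiff.2 (Or.inr h)
          · exact h
      · rw [mid_even (by omega) (by omega) (by omega)] at h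
        exact absurd h (by simp)

theorem bwd (hφ : Distinct3 φ) (h : ∃ A : Finset ℕ, (∃ a < 9 + 8 * φ.length, a ∈ A) ∧
    (∃ b < 9 + 8 * φ.length, b ∉ A) ∧ ∀ u v m, u < v → v < 9 + 8 * φ.length → mid φ u v = some m →
      (u ∈ A ↔ v ∈ A) → (m ∈ A ↔ u ∈ A)) : SAT3 φ := by
  classical
  obtain ⟨A, ⟨a0, ha0, ha0A⟩, ⟨b0, hb0, hb0A⟩, hA⟩ := h
  set c : ℕ → Bool := fun x => decide (x ∈ A) with hc
  have hr : ∀ u v m, u < v → v < 9 + 8 * φ.length → mid φ u v = some m → c u = c v → c m = c u := by
    intro u v m h1 h2 h3 h4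
    have h5 : u ∈ A ↔ v ∈ A := by simpa [hc] using h4
    have h6 := hA u v m h1 h2 h3 h5
    simp only [hc, h6]
  have hcore : ∀ u < 8, c u = c 0 := core_irr fun u v m h1 h2 h3 =>
    hr u v m h1 (by omega) (by rw [mid_core h2, h3])
  -- the vertex `8` has the other colour
  have h8 : c 8 ≠ c 0 := by
    intro h8
    have hz : ∀ i, i ≤ 4 * φ.length → c (8 + 2 * i) = c 0 := by
      intro i
      induction i with
      | zero => intro _; exact h8
      | succ i ih =>
        intro hi
        have h1 := ih (by omega)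
        have h2 : mid φ ((8 + 2 * i) / 2 % 2) (8 + 2 * i) = some (8 + 2 * i + 2) := by
          rw [mid_z (by omega) (by omega)]
          unfold midZ
          rw [if_pos (by omega)]
        have h4 := hcore ((8 + 2 * i) / 2 % 2) (by omega)
        have h3 := hr _ _ _ (by omega) (by omega) h2 (by rw [h1, h4])
        rw [h4] at h3
        exact h3
    have hx : ∀ i, i < 4 * φ.length → c (9 + 2 * i) = c 0 := by
      intro i hi
      have h1 := hz i (by omega)
      have h2 : mid φ 2 (8 + 2 * i) = some (8 + 2 * i + 1) := by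
        rw [mid_z (by omega) (by omega)]
        unfold midZ
        rw [if_neg (by omega), if_pos (by omega)]
      have h5 := hcore 2 (by omega)
      have h3 := hr _ _ _ (by omega) (by omega) h2 (by rw [h1, h5])
      rw [h5] at h3
      have h4 : 8 + 2 * i + 1 = 9 + 2 * i := by omega
      rw [h4] at h3
      exact h3
    have hall : ∀ x, x < 9 + 8 * φ.length → c x = c 0 := by
      intro x hx'
      by_cases h1 : x < 8
      · exact hcore x h1
      · rcases Nat.mod_two_eq_zero_or_one x with h2 | h2
        · obtain ⟨i, rfl⟩ : ∃ i, x = 8 + 2 * i := ⟨(x - 8) / 2, by omega⟩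
          exact hz i (by omega)
        · obtain ⟨i, rfl⟩ : ∃ i, x = 9 + 2 * i := ⟨(x - 9) / 2, by omega⟩
          exact hx i (by omega)
    have h1 := (hall a0 ha0).trans (hall b0 hb0).symm
    simp only [hc, decide_eq_decide] at h1
    exact hb0A (h1.1 ha0A)
  refine ⟨fun w => decide (∃ t, ((true, w), t) ∈ lits φ ∧ c (9 + 2 * t) = c 0), ?_⟩
  have hocc : ∀ (l : Lit ℕ) t, (l, t) ∈ lits φ → c (9 + 2 * t) = c 0 →
      decide (∃ t, ((true, l.2), t) ∈ lits φ ∧ c (9 + 2 * t) = c 0) = l.1 := by
    rintro ⟨s, w⟩ t ht hct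
    cases s with
    | true => exact decide_eq_true ⟨t, ht, hct⟩
    | false =>
      refine decide_eq_false ?_
      rintro ⟨t', ht', hct'⟩
      simp only at ht' hct'
      have hne : t ≠ t' := by
        rintro rfl
        have := lits_unique ht ht'
        simp at this
      have h1 := lits_lt ht
      have h2 := lits_lt ht'
      rcases Nat.lt_or_gt_of_ne hne with h3 | h3
      · have h4 : mid φ (9 + 2 * t) (9 + 2 * t') = some 8 := by
          rw [mid_x]
          unfold midX
          rw [if_pos (contr_iff.2 ⟨w, false, ht, ht'⟩)]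
        exact h8 ((hr _ _ _ (by omega) (by omega) h4 (hct.trans hct'.symm)).trans hct)
      · have h4 : mid φ (9 + 2 * t') (9 + 2 * t) = some 8 := by
          rw [mid_x]
          unfold midX
          rw [if_pos (contr_iff.2 ⟨w, true, ht', ht⟩)]
        exact h8 ((hr _ _ _ (by omega) (by omega) h4 (hct'.trans hct.symm)).trans hct')
  intro cl hcl
  obtain ⟨j, hj, hjc⟩ := List.getElem_of_mem hcl
  have hjc' : φ[j]? = some cl := by rw [List.getElem?_eq_getElem hj, hjc]
  obtain ⟨h1, h2, h3⟩ := clause_lits hjc'
  by_contra hcon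
  push Not at hcon
  obtain ⟨n1, n2, n3⟩ := hcon
  have f1 : c (9 + 2 * (3 * j)) ≠ c 0 := fun h => n1 (hocc _ _ h1 h)
  have f2 : c (9 + 2 * (3 * j + 1)) ≠ c 0 := fun h => n2 (hocc _ _ h2 h)
  have f3 : c (9 + 2 * (3 * j + 2)) ≠ c 0 := fun h => n3 (hocc _ _ h3 h)
  have eqn : ∀ x y z : Bool, x ≠ z → y ≠ z → x = y := by decide
  have g1 : mid φ (9 + 2 * (3 * j)) (9 + 2 * (3 * j + 1)) = some (9 + 2 * (3 * φ.length + j)) := by
    rw [mid_x]
    unfold midX
    rw [if_neg (fun hc' => contr_same hφ hc' (by omega)), if_pos (by omega)]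
    have : 3 * j / 3 = j := by omega
    rw [this]
  have g2 := hr _ _ _ (by omega) (by omega) g1 (eqn _ _ _ f1 f2)
  have g3 : mid φ (9 + 2 * (3 * j + 2)) (9 + 2 * (3 * φ.length + j)) = some 3 := by
    rw [mid_x]
    unfold midX
    rw [if_neg (fun hc' => by have := contr_lt hc'; omega), if_neg (by omega), if_pos (by omega)]
  have g4 := hr _ _ _ (by omega) (by omega) g3 (eqn _ _ _ f3 (by rw [g2]; exact f1))
  rw [hcore 3 (by omega)] at g4
  exact f3 g4.symm

/-- Deciding whether a consistent path system has a reduction is NP-hard. -/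
theorem hard : NPHardP Reducible := by
  refine (hardPr_SAT3.trans (Pr' := fun _ => True) red_poly (fun _ _ => trivial)
    ?_).toHardI.toNPHardP
  intro φ hφ
  have hg := good hφ
  constructor
  · intro h
    exact ⟨isGraph_relE List.nodup_range, isPathSystem hg, consistent hg,
      (hasReduction_iff hg).2 (fwd h)⟩
  · rintro ⟨-, -, -, h⟩
    exact bwd hφ ((hasReduction_iff hg).1 h)

end Pool.Agent.X130.PS
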